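import Pool.Agent.Helper65.TU.Stmts
import Pool.Agent.Helper40.BaireAffine2

set_option autoImplicit false

open Set Filter Topology MeasureTheory

namespace Pool.Agent.Helper65.TU

universe u

theorem st_GRO (hGL : ST_GL1.{u}) : ST_GRO.{u} := by
  intro S _ _ _ K hK φ hφ c hc
  borelize S
  obtain ⟨Φ, hΦ⟩ : ∃ Φ : C(S, ℝ) → C(S, ℝ), Φ = fun x : C(S, ℝ) =>
    (⟨fun t => φ (x t), hφ.comp x.continuous⟩ : C(S, ℝ)) := ⟨_, rfl⟩
  rw [← hΦ]
  have hΦt : ∀ (x : C(S, ℝ)) (t : S), Φ x t = φ (x t) := by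
    intro x t; rw [hΦ]; rfl
  obtain ⟨c', hc'⟩ : ∃ c' : ℝ, c' = |c| + 1 := ⟨_, rfl⟩
  have hc'0 : 0 < c' := by rw [hc']; positivity
  have hlip : ∀ a b, |φ a - φ b| ≤ c' * |a - b| := by
    intro a b
    refine (hc a b).trans (mul_le_mul_of_nonneg_right ?_ (abs_nonneg _))
    rw [hc']
    linarith [le_abs_self c]
  have hint : ∀ (ν : Measure S) (_ : IsFiniteMeasure ν) (z : C(S, ℝ)),
      Integrable (fun t => |z t|) ν := by
    intro ν _ z
    exact (z.continuous.abs).integrable_of_hasCompactSupport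
      (HasCompactSupport.of_compactSpace _)
  have hcont : ContinuousOn (fun a : WeakSpace ℝ C(S, ℝ) =>
      toWeakSpace ℝ C(S, ℝ) (Φ ((toWeakSpace ℝ C(S, ℝ)).symm a)))
      (toWeakSpace ℝ C(S, ℝ) '' K) := by
    rw [continuousOn_iff_continuous_domRestrict]
    apply WeakBilin.continuous_of_continuous_eval
    intro f
    rw [continuous_iff_continuousAt]
    rintro ⟨a, x, hx, rfl⟩
    obtain ⟨ν, hν1, -, hν⟩ := Pool.Agent.Helper40.BaireAffine.exists_dom (X := S) (E := ℝ) f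
    rw [Metric.continuousAt_iff']
    intro ε hε
    obtain ⟨G, η, hη, hG⟩ := hGL S ν hν1 K hK x hx (ε / c') (by positivity)
    have hnb : ∀ᶠ b : (toWeakSpace ℝ C(S, ℝ) '' K : Set (WeakSpace ℝ C(S, ℝ))) in
        𝓝 ⟨toWeakSpace ℝ C(S, ℝ) x, x, hx, rfl⟩, ∀ g ∈ G,
        |g ((toWeakSpace ℝ C(S, ℝ)).symm b.1) - g x| < η := by
      rw [Filter.eventually_all_finset]
      intro g _
      have h1 : Continuous (fun b : (toWeakSpace ℝ C(S, ℝ) '' K : Set (WeakSpace ℝ C(S, ℝ))) =>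
          g ((toWeakSpace ℝ C(S, ℝ)).symm b.1)) :=
        (WeakBilin.eval_continuous (topDualPairing ℝ C(S, ℝ)).flip g).comp continuous_subtype_val
      have h2 := h1.continuousAt (x := ⟨toWeakSpace ℝ C(S, ℝ) x, x, hx, rfl⟩)
      rw [Metric.continuousAt_iff'] at h2
      exact h2 η hη
    filter_upwards [hnb] with b hb
    obtain ⟨b, y, hy, rfl⟩ := b
    have hxy := hG y hy hb
    have hdist : dist (f (Φ y)) (f (Φ x)) < ε := by
      rw [Real.dist_eq, ← map_sub]
      calc |f (Φ y - Φ x)| ≤ ∫ t, ‖(Φ y - Φ x) t‖ ∂ν := hν _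
        _ ≤ ∫ t, c' * |(y - x) t| ∂ν := by
            refine integral_mono (hint ν hν1 _) ((hint ν hν1 _).const_mul _) ?_
            intro t
            simp only [ContinuousMap.sub_apply, hΦt, Real.norm_eq_abs]
            exact hlip _ _
        _ = c' * ∫ t, |(y - x) t| ∂ν := integral_const_mul _ _
        _ < c' * (ε / c') := by
            apply mul_lt_mul_of_pos_left _ hc'0
            exact hxy
        _ = ε := by field_simp
    exact hdist
  have himg : toWeakSpace ℝ C(S, ℝ) '' (Φ '' K) =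
      (fun a : WeakSpace ℝ C(S, ℝ) =>
        toWeakSpace ℝ C(S, ℝ) (Φ ((toWeakSpace ℝ C(S, ℝ)).symm a))) ''
      (toWeakSpace ℝ C(S, ℝ) '' K) := by
    rw [Set.image_image, Set.image_image]
    simp
  unfold WCpt
  rw [himg]
  exact IsCompact.image_of_continuousOn hK hcont

end Pool.Agent.Helper65.TU
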