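import Pool.Agent.Helper65.TU.Stmts3
import Pool.Agent.Helper65.TU.Basic

set_option autoImplicit false

open Set Filter Topology

namespace Pool.Agent.Helper65.TU

universe u

theorem st_SHK : ST_SHK.{u} := by
  intro X _ _ A r hA hr hlim
  unfold WCpt
  rw [isCompact_iff_ultrafilter_le_nhds]
  intro F hF
  rw [le_principal_iff] at hF
  by_cases h : ∃ k, toWeakSpace ℝ X '' A k ∈ F
  · obtain ⟨k, hk⟩ := h
    obtain ⟨z, hz, hFz⟩ := (hA k).ultrafilter_le_nhds F (le_principal_iff.2 hk)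
    exact ⟨z, image_mono ((subset_iUnion A k).trans subset_union_right) hz, hFz⟩
  · push Not at h
    refine ⟨toWeakSpace ℝ X 0, ⟨0, Or.inl rfl, rfl⟩, ?_⟩
    intro U hU
    have hpre : (toWeakSpace ℝ X) ⁻¹' U ∈ 𝓝 (0 : X) :=
      (toWeakSpaceCLM ℝ X).continuous.continuousAt.preimage_mem_nhds hU
    obtain ⟨δ, hδ, hball⟩ := Metric.mem_nhds_iff.1 hpre
    obtain ⟨N, hN⟩ := eventually_atTop.1 (hlim.eventually (gt_mem_nhds hδ))
    have h1 : (⋂ k ∈ Finset.range N, (toWeakSpace ℝ X '' A k)ᶜ) ∈ F :=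
      (Filter.biInter_finset_mem _).2 (fun k _ => Ultrafilter.compl_mem_iff_notMem.2 (h k))
    filter_upwards [hF, h1] with y hy1 hy2
    obtain ⟨x, hx, rfl⟩ := hy1
    rcases hx with hx | hx
    · rw [mem_singleton_iff.1 hx]
      exact mem_of_mem_nhds hU
    · obtain ⟨k, hk⟩ := mem_iUnion.1 hx
      by_cases hkN : k < N
      · exact absurd ⟨x, hk, rfl⟩ (mem_iInter₂.1 hy2 k (Finset.mem_range.2 hkN))
      · apply hball
        rw [mem_ball_zero_iff]
        exact (hr k x hk).trans_lt (hN k (not_lt.1 hkN))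

end Pool.Agent.Helper65.TU
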